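import Pool.Agent.H59.AB.SEL3
import Pool.Agent.H86.RB.SMO
import Pool.Agent.H34.RB.DEL

/-! # SEL3: the theorem -/

set_option autoImplicit false

namespace Pool.Agent.H59.AB

open Pool.Agent.H38.RB Pool.Agent.H38.PS Finset

variable {x : Fin 3 → ℤ}

theorem nat_coprime (hx : Adm x) {i j : Fin 3} (hij : i ≠ j) :
    Nat.Coprime (x i).natAbs (x j).natAbs := by
  have h1 := hx.2.1 i j hij
  rwa [Int.isCoprime_iff_gcd_eq_one] at h1

theorem pr_nat (x : Fin 3 → ℤ) :
    pr x = (x 0).natAbs * (x 1).natAbs * (x 2).natAbs := by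
  unfold pr
  rw [Int.natAbs_mul, Int.natAbs_mul]

theorem fact_pr (hx : Adm x) {a : Fin 3} {p : ℕ} (hp : p ∈ (x a).natAbs.primeFactors) :
    (pr x).factorization p = (x a).natAbs.factorization p := by
  have h0 : ∀ i, (x i).natAbs ≠ 0 := fun i => Int.natAbs_ne_zero.2 (hx.1 i)
  have hpp := Nat.prime_of_mem_primeFactors hp
  have hz : ∀ j, j ≠ a → (x j).natAbs.factorization p = 0 := by
    intro j hj
    apply Nat.factorization_eq_zero_of_not_dvd
    intro hd
    have h1 := Nat.dvd_of_mem_primeFactors hp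
    have h2 := Nat.dvd_gcd hd h1
    rw [nat_coprime hx hj] at h2
    exact hpp.one_lt.ne' (Nat.dvd_one.1 h2)
  rw [pr_nat, Nat.factorization_mul (mul_ne_zero (h0 0) (h0 1)) (h0 2),
    Nat.factorization_mul (h0 0) (h0 1)]
  simp only [Finsupp.add_apply]
  fin_cases a
  · rw [hz 1 (by decide), hz 2 (by decide)]
    rfl
  · rw [hz 0 (by decide), hz 2 (by decide)]
    simp
  · rw [hz 0 (by decide), hz 1 (by decide)]
    simp

theorem primes_pr (hx : Adm x) :
    (pr x).primeFactors = Finset.univ.biUnion fun i => (x i).natAbs.primeFactors := by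
  have h0 : ∀ i, (x i).natAbs ≠ 0 := fun i => Int.natAbs_ne_zero.2 (hx.1 i)
  rw [pr_nat, Nat.primeFactors_mul (mul_ne_zero (h0 0) (h0 1)) (h0 2),
    Nat.primeFactors_mul (h0 0) (h0 1)]
  ext p
  simp only [Finset.mem_union, Finset.mem_biUnion, Finset.mem_univ, true_and]
  constructor
  · rintro ((h | h) | h)
    · exact ⟨0, h⟩
    · exact ⟨1, h⟩
    · exact ⟨2, h⟩
  · rintro ⟨i, hi⟩
    fin_cases i
    · exact Or.inl (Or.inl hi)
    · exact Or.inl (Or.inr hi)
    · exact Or.inr hi

theorem disj (hx : Adm x) {i j : Fin 3} (hij : i ≠ j) :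
    Disjoint (x i).natAbs.primeFactors (x j).natAbs.primeFactors :=
  Nat.Coprime.disjoint_primeFactors (nat_coprime hx hij)

theorem log_pd (S : Finset ℕ) (hS : ∀ p ∈ S, p.Prime) :
    Real.log (pd S : ℝ) = ∑ p ∈ S, Real.log (p : ℝ) := by
  unfold pd
  rw [Nat.cast_prod, Real.log_prod]
  intro p hp
  exact Nat.cast_ne_zero.2 (hS p hp).ne_zero

theorem log_entry (hx : Adm x) (a : Fin 3) :
    Real.log ((x a).natAbs : ℝ) = ∑ p ∈ (x a).natAbs.primeFactors,
      ((pr x).factorization p : ℝ) * Real.log p := by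
  have h0 : (x a).natAbs ≠ 0 := Int.natAbs_ne_zero.2 (hx.1 a)
  have h1 : tp (x a).natAbs.primeFactors (x a).natAbs = (x a).natAbs := by
    unfold tp
    exact Nat.prod_factorization_pow_eq_self h0
  have h2 := smo_log_tp (x a).natAbs.primeFactors
    (fun p hp => Nat.prime_of_mem_primeFactors hp) (x a).natAbs
  rw [h1] at h2
  rw [h2]
  exact Finset.sum_congr rfl fun p hp => by rw [fact_pr hx hp]

theorem big_entry (hx : Adm x) {e : ℝ} (he0 : 0 < e) (he1 : e ≤ 1 / 10)
    (hK : 1 / e ≤ Real.log (ht x)) {c : Fin 3}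
    (hc : Real.log ((x c).natAbs : ℝ) < e * Real.log (ht x)) {a : Fin 3} (ha : a ≠ c) :
    (1 - e) * Real.log (ht x) ≤ Real.log ((x a).natAbs : ℝ) := by
  have h0 : ∀ i, (x i).natAbs ≠ 0 := fun i => Int.natAbs_ne_zero.2 (hx.1 i)
  have hpos : ∀ i, (0 : ℝ) < (x i).natAbs := fun i =>
    Nat.cast_pos.2 (Nat.pos_of_ne_zero (h0 i))
  set h := Real.log (ht x) with hh
  have heh : 1 ≤ e * h := by
    rw [div_le_iff₀ he0] at hK
    linarith
  have hh10 : 10 ≤ h := by nlinarith
  have hH0 : (0 : ℝ) < ht x := by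
    have : (x 0).natAbs ≤ ht x := le_max_left _ _
    exact lt_of_lt_of_le (hpos 0) (Nat.cast_le.2 this)
  have hl2 : Real.log 2 ≤ 1 := by
    have := Real.log_two_lt_d9
    linarith
  -- the small entry is at most half the height
  have hhalf : 2 * ((x c).natAbs : ℝ) ≤ ht x := by
    have h1 : Real.log (2 * ((x c).natAbs : ℝ)) ≤ Real.log (ht x) := by
      rw [Real.log_mul two_ne_zero (hpos c).ne']
      nlinarith
    exact (Real.log_le_log_iff (mul_pos two_pos (hpos c)) hH0).1 h1
  have hhalfN : 2 * (x c).natAbs ≤ ht x := by exact_mod_cast hhalf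
  have hbigN : ht x ≤ 2 * (x a).natAbs := by
    have hs := hx.2.2
    unfold ht at hhalfN ⊢
    fin_cases a <;> fin_cases c <;> simp only [Fin.zero_eta, Fin.mk_one, Fin.reduceFinMk,
      Fin.isValue, ne_eq, not_true_eq_false] at ha hhalfN ⊢ <;> omega
  have hbig : (ht x : ℝ) ≤ 2 * ((x a).natAbs : ℝ) := by exact_mod_cast hbigN
  have h2 := Real.log_le_log hH0 hbig
  rw [Real.log_mul two_ne_zero (hpos a).ne', ← hh] at h2
  linarith

theorem pf_SEL3 : T_SEL3 := by
  classical
  intro ε hε
  set e : ℝ := min ε 1 / 10 with he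
  have hmin0 : 0 < min ε 1 := lt_min hε one_pos
  have he0 : 0 < e := by positivity
  have he1 : e ≤ 1 / 10 := by
    rw [he]
    have := min_le_right ε 1
    linarith
  have heε : e ≤ ε := by
    rw [he]
    have := min_le_left ε 1
    linarith
  refine ⟨e ^ 2, 1 / e, by positivity, by nlinarith, by positivity, ?_⟩
  intro x hx hK
  set h := Real.log (ht x) with hh
  have hh0 : 0 < h := lt_of_lt_of_le (by positivity) hK
  have h0 : ∀ i, (x i).natAbs ≠ 0 := fun i => Int.natAbs_ne_zero.2 (hx.1 i)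
  have hpos : ∀ i, (0 : ℝ) < (x i).natAbs := fun i =>
    Nat.cast_pos.2 (Nat.pos_of_ne_zero (h0 i))
  have hprime : ∀ i, ∀ p ∈ (x i).natAbs.primeFactors, p.Prime := fun i p hp =>
    Nat.prime_of_mem_primeFactors hp
  have hlog : ∀ i, ∀ p ∈ (x i).natAbs.primeFactors, 0 < Real.log (p : ℝ) := fun i p hp =>
    Real.log_pos (by exact_mod_cast (hprime i p hp).one_lt)
  have hY : ∀ i, ∀ p ∈ (x i).natAbs.primeFactors,
      0 ≤ ((pr x).factorization p : ℝ) * Real.log p := fun i p hp =>
    mul_nonneg (Nat.cast_nonneg _) (hlog i p hp).le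
  have hle : ∀ i, (x i).natAbs ≤ ht x := by
    intro i
    unfold ht
    fin_cases i
    · exact le_max_left _ _
    · exact (le_max_left _ _).trans (le_max_right _ _)
    · exact (le_max_right _ _).trans (le_max_right _ _)
  have hYh : ∀ i, ∑ p ∈ (x i).natAbs.primeFactors,
      ((pr x).factorization p : ℝ) * Real.log p ≤ h := by
    intro i
    rw [← log_entry hx i]
    exact Real.log_le_log (hpos i) (Nat.cast_le.2 (hle i))
  have hΛ : Real.log (pd (pr x).primeFactors : ℝ) =
      ∑ i : Fin 3, ∑ p ∈ (x i).natAbs.primeFactors, Real.log (p : ℝ) := by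
    rw [log_pd _ (fun p hp => Nat.prime_of_mem_primeFactors hp), primes_pr hx,
      Finset.sum_biUnion]
    intro i _ j _ hij
    exact disj hx hij
  have hΛ0 : 0 ≤ Real.log (pd (pr x).primeFactors : ℝ) := by
    rw [hΛ]
    exact Finset.sum_nonneg fun i _ => Finset.sum_nonneg fun p hp => (hlog i p hp).le
  rcases core Pool.Agent.H33.RB.GRD (fun i => (x i).natAbs.primeFactors)
    (fun p => ((pr x).factorization p : ℝ) * Real.log p) (fun p => Real.log (p : ℝ)) h e he0 he1
    hh0 hY hlog hYh (by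
      intro c hc a ha
      rw [← log_entry hx c] at hc
      rw [← log_entry hx a]
      exact big_entry hx he0 he1 hK hc ha) with
    ⟨a, c, E, hac, hE, h1, h2⟩ | ⟨a, b, p, E, hab, hp, hE, h1, h2⟩
  · left
    have hEc : Disjoint (x c).natAbs.primeFactors E :=
      Finset.disjoint_of_subset_right hE (disj hx hac.symm)
    have hsub : (x c).natAbs.primeFactors ∪ E ⊆ (pr x).primeFactors := by
      rw [primes_pr hx]
      refine Finset.union_subset ?_ (hE.trans ?_)
      · exact Finset.subset_biUnion_of_mem (fun i : Fin 3 => (x i).natAbs.primeFactors)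
          (Finset.mem_univ c)
      · exact Finset.subset_biUnion_of_mem (fun i : Fin 3 => (x i).natAbs.primeFactors)
          (Finset.mem_univ a)
    refine ⟨(x c).natAbs.primeFactors ∪ E, hsub, ?_, ?_⟩
    · rw [smo_log_tp _ (fun p hp => Nat.prime_of_mem_primeFactors (hsub hp)),
        Finset.sum_union hEc]
      exact h1
    · have h3 : Real.log (pd ((pr x).primeFactors \ ((x c).natAbs.primeFactors ∪ E)) : ℝ) +
          (∑ p ∈ (x c).natAbs.primeFactors, Real.log (p : ℝ) + ∑ p ∈ E, Real.log (p : ℝ)) =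
          Real.log (pd (pr x).primeFactors : ℝ) := by
        rw [log_pd _ (fun p hp => Nat.prime_of_mem_primeFactors (Finset.sdiff_subset hp)),
          log_pd _ (fun p hp => Nat.prime_of_mem_primeFactors hp), ← Finset.sum_union hEc]
        exact Finset.sum_sdiff hsub
      rw [← hΛ] at h2
      have h4 : (2 / 3 + e) * Real.log (pd (pr x).primeFactors : ℝ) ≤
          (2 / 3 + ε) * Real.log (pd (pr x).primeFactors : ℝ) :=
        mul_le_mul_of_nonneg_right (by linarith) hΛ0
      linarith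
  · right
    refine ⟨a, b, p, E, hab, hp, hE, ?_, ?_⟩
    · rw [smo_log_tp E (fun q hq => hprime a q (hE hq)), log_entry hx a]
      have h3 : ∑ q ∈ E, (((x a).natAbs).factorization q : ℝ) * Real.log q =
          ∑ q ∈ E, ((pr x).factorization q : ℝ) * Real.log q :=
        Finset.sum_congr rfl fun q hq => by rw [fact_pr hx (hE hq)]
      rw [h3]
      exact h1
    · rw [log_pd E (fun q hq => hprime a q (hE hq))]
      rw [← hΛ] at h2
      have h4 : (2 / 3 + e) * Real.log (pd (pr x).primeFactors : ℝ) ≤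
          (2 / 3 + ε) * Real.log (pd (pr x).primeFactors : ℝ) :=
        mul_le_mul_of_nonneg_right (by linarith) hΛ0
      exact h2.trans h4

end Pool.Agent.H59.AB
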