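import Pool.Agent.H38.PS.Targets2
import Pool.Agent.H33.RB.GRD

/-! # SEL3: choice of the primes to be removed, exponent `2 / 3` -/

set_option autoImplicit false

namespace Pool.Agent.H59.AB

open Pool.Agent.H38.RB Pool.Agent.H38.PS Finset

/-- the combinatorial core -/
theorem core (hG : T_GRD) (P : Fin 3 → Finset ℕ) (Y w : ℕ → ℝ) (h e : ℝ) (he0 : 0 < e)
    (he1 : e ≤ 1 / 10) (hh : 0 < h)
    (hY : ∀ i, ∀ p ∈ P i, 0 ≤ Y p) (hw : ∀ i, ∀ p ∈ P i, 0 < w p)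
    (hYh : ∀ i, ∑ p ∈ P i, Y p ≤ h)
    (hbig : ∀ c, ∑ p ∈ P c, Y p < e * h → ∀ a, a ≠ c → (1 - e) * h ≤ ∑ p ∈ P a, Y p) :
    (∃ (a c : Fin 3) (E : Finset ℕ), a ≠ c ∧ E ⊆ P a ∧
      ∑ p ∈ P c, Y p + ∑ p ∈ E, Y p ≤ (1 - e ^ 2) * h ∧
      ∑ i, ∑ p ∈ P i, w p - ∑ p ∈ P c, w p - ∑ p ∈ E, w p ≤
        (2 / 3 + e) * ∑ i, ∑ p ∈ P i, w p) ∨
    ∃ (a b : Fin 3) (p : ℕ) (E : Finset ℕ), a ≠ b ∧ p ∈ P b ∧ E ⊆ P a ∧
      ∑ p ∈ E, Y p + e ^ 2 * h ≤ ∑ p ∈ P a, Y p ∧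
      ∑ i, ∑ p ∈ P i, w p - w p - ∑ p ∈ E, w p ≤ (2 / 3 + e) * ∑ i, ∑ p ∈ P i, w p := by
  classical
  have hm : ∀ i, ∃ m : ℝ, 0 ≤ m ∧ (∀ p ∈ P i, w p ≤ m) ∧ ((P i).Nonempty → ∃ p ∈ P i, w p = m) := by
    intro i
    by_cases hne : (P i).Nonempty
    · obtain ⟨p, hp, hmax⟩ := Finset.exists_max_image (P i) w hne
      exact ⟨w p, (hw i p hp).le, hmax, fun _ => ⟨p, hp, rfl⟩⟩
    · rw [Finset.not_nonempty_iff_eq_empty] at hne
      refine ⟨0, le_rfl, ?_, fun h => ?_⟩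
      · intro p hp
        rw [hne] at hp
        simp at hp
      · rw [hne] at h
        simp at h
  choose m hm0 hmw hmp using hm
  have hW0 : ∀ i, 0 ≤ ∑ p ∈ P i, w p := fun i => Finset.sum_nonneg fun p hp => (hw i p hp).le
  set Λ : ℝ := ∑ i, ∑ p ∈ P i, w p with hΛ
  have hΛ3 : Λ = ∑ p ∈ P 0, w p + ∑ p ∈ P 1, w p + ∑ p ∈ P 2, w p := by
    rw [hΛ, Fin.sum_univ_three]
  have hΛ0 : 0 ≤ Λ := by
    have := hW0 0
    have := hW0 1
    have := hW0 2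
    linarith
  have hne : ∀ i, 0 < ∑ p ∈ P i, Y p → (P i).Nonempty := by
    intro i hi
    by_contra hcon
    rw [Finset.not_nonempty_iff_eq_empty] at hcon
    rw [hcon] at hi
    simp at hi
  have hgr : ∀ (i : Fin 3) (U τ : ℝ), ∑ p ∈ P i, Y p ≤ U → 0 < U → 0 ≤ τ → τ ≤ U →
      ∃ D ⊆ P i, ∑ p ∈ D, Y p ≤ τ ∧ τ / U * ∑ p ∈ P i, w p - m i ≤ ∑ p ∈ D, w p :=
    fun i U τ h1 h2 h3 h4 => hG (P i) Y w U (m i) τ (hY i) (hw i) (hmw i) (hm0 i) h1 h2 h3 h4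
  by_cases hI : ∀ i, e * h ≤ ∑ p ∈ P i, Y p
  · -- all entries are large
    right
    have heh : 0 < e * h := mul_pos he0 hh
    have hD : ∀ i, ∃ D ⊆ P i, ∑ p ∈ D, Y p ≤ ∑ p ∈ P i, Y p - e ^ 2 * h ∧
        (1 - e) * ∑ p ∈ P i, w p - m i ≤ ∑ p ∈ D, w p := by
      intro i
      have h1 : 0 < ∑ p ∈ P i, Y p := lt_of_lt_of_le heh (hI i)
      have h2 : e ^ 2 * h ≤ e * h := by nlinarith
      obtain ⟨D, hD, hD1, hD2⟩ := hgr i (∑ p ∈ P i, Y p) (∑ p ∈ P i, Y p - e ^ 2 * h) le_rfl h1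
        (by linarith [hI i]) (by nlinarith [sq_nonneg e])
      refine ⟨D, hD, hD1, le_trans (sub_le_sub_right ?_ _) hD2⟩
      refine mul_le_mul_of_nonneg_right ?_ (hW0 i)
      rw [le_div_iff₀ h1]
      nlinarith [hI i]
    choose D hD0 hD1 hD2 using hD
    have hp : ∀ i, ∃ p ∈ P i, w p = m i := fun i => hmp i (hne i (lt_of_lt_of_le heh (hI i)))
    choose q hq1 hq2 using hp
    have hsum : ∃ i : Fin 3, (1 - e) / 3 * Λ ≤ ∑ p ∈ D i, w p + m (i + 1) := by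
      by_contra hcon
      push Not at hcon
      have h0 := hcon 0
      have h1 := hcon 1
      have h2 := hcon 2
      have e1 : (0 : Fin 3) + 1 = 1 := rfl
      have e2 : (1 : Fin 3) + 1 = 2 := rfl
      have e3 : (2 : Fin 3) + 1 = 0 := rfl
      rw [e1] at h0
      rw [e2] at h1
      rw [e3] at h2
      have := hD2 0
      have := hD2 1
      have := hD2 2
      nlinarith
    obtain ⟨i, hi⟩ := hsum
    refine ⟨i, i + 1, q (i + 1), D i, ?_, hq1 _, hD0 i, by linarith [hD1 i], ?_⟩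
    · intro hcon
      fin_cases i <;> simp at hcon
    · rw [hq2]
      nlinarith
  · -- one entry is small
    push Not at hI
    obtain ⟨c, hc⟩ := hI
    obtain ⟨a, b, hac, hbc, hab, hsum3⟩ : ∃ a b : Fin 3, a ≠ c ∧ b ≠ c ∧ a ≠ b ∧
        Λ = ∑ p ∈ P a, w p + ∑ p ∈ P b, w p + ∑ p ∈ P c, w p := by
      fin_cases c
      · exact ⟨1, 2, by decide, by decide, by decide, by rw [hΛ3]; simp only [Fin.zero_eta]; ring⟩
      · exact ⟨0, 2, by decide, by decide, by decide, by rw [hΛ3]; simp only [Fin.mk_one]; ring⟩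
      · exact ⟨0, 1, by decide, by decide, by decide, by rw [hΛ3]; rfl⟩
    have hYa := hbig c hc a hac
    have hYb := hbig c hc b hbc
    have hpos : 0 < (1 - e) * h := mul_pos (by linarith) hh
    have h3e : 0 ≤ (1 - 3 * e) * h := mul_nonneg (by linarith) hh.le
    have h3e' : (1 - 3 * e) * h ≤ h := by nlinarith
    have hdiv : (1 - 3 * e) * h / h = 1 - 3 * e := by field_simp
    obtain ⟨Ea, hEa, hEa1, hEa2⟩ := hgr a h ((1 - 3 * e) * h) (hYh a) hh h3e h3e'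
    obtain ⟨Eb, hEb, hEb1, hEb2⟩ := hgr b h ((1 - 3 * e) * h) (hYh b) hh h3e h3e'
    rw [hdiv] at hEa2 hEb2
    obtain ⟨pa, hpa, hpa1⟩ := hmp a (hne a (lt_of_lt_of_le hpos hYa))
    obtain ⟨pb, hpb, hpb1⟩ := hmp b (hne b (lt_of_lt_of_le hpos hYb))
    have hWa := hW0 a
    have hWb := hW0 b
    have hWc := hW0 c
    have he2 : e ^ 2 * h ≤ e * h := by nlinarith
    have heh : 0 < e * h := mul_pos he0 hh
    by_cases h1 : (1 / 3 - e) * Λ ≤ ∑ p ∈ P c, w p + ∑ p ∈ Ea, w p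
    · left
      refine ⟨a, c, Ea, hac, hEa, ?_, ?_⟩
      · nlinarith
      · linarith
    · right
      by_cases h2 : (1 / 3 - e) * Λ ≤ m a + ∑ p ∈ Eb, w p
      · refine ⟨b, a, pa, Eb, hab.symm, hpa, hEb, ?_, ?_⟩
        · nlinarith
        · rw [hpa1]
          linarith
      · refine ⟨a, b, pb, ∅, hab, hpb, Finset.empty_subset _, ?_, ?_⟩
        · rw [Finset.sum_empty]
          nlinarith
        · rw [hpb1, Finset.sum_empty]
          push Not at h1 h2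
          nlinarith

end Pool.Agent.H59.AB
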